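import Pool.Agent.H89RS.Main

set_option autoImplicit false

open Set Topology Cardinal MeasureTheory

open Pool.Agent.H89RS

namespace Pool.Agent.Results.MP_5debab_gt.CoanalyticRigid

/-- If some nonempty coanalytic subset of the Cantor set is `𝔠`-crowded and rigid (which is known
under `V = L`), then some coanalytic subset of the Cantor set is `𝔠`-crowded and rigid but not
`𝔠`-hereditarily rigid. The converse holds as well. -/
theorem result :
    (∃ Z : Set (ℕ → Bool), AnalyticSet Zᶜ ∧ Z.Nonempty ∧ CCrowded Z ∧ Rigid Z) ↔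
      (∃ X : Set (ℕ → Bool), AnalyticSet Xᶜ ∧ CCrowded X ∧ Rigid X ∧ ¬ CHereditarilyRigid X) :=
  main

end Pool.Agent.Results.MP_5debab_gt.CoanalyticRigid
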